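import Pool.Agent.Helper15.FC.St3

set_option autoImplicit false

/-! Project FC, module L2M: mean square over the shifts. -/

open Polynomial Pool.Agent.Helper15.FC

namespace Pool.Agent.Helper31.FC

theorem hL2M (hCOR : StCOR) (hMQH : StMQH) (hPLA : StPLA) (hGAM : StGAM) (hEET : StEET)
    (hSME : StSME) (hDKB : StDKB) (hACF : StACF) : StL2M := by
  intro F _ _ k l
  obtain ⟨C1, hC1⟩ := hEET F k
  refine ⟨C1 + 2 * (l * l), ?_⟩
  intro n m Q κ H0 h1 h2 h3 h4 hκ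
  have hq : (1 : ℝ) ≤ qr F := by
    have := Fintype.card_pos (α := F)
    exact_mod_cast this
  have hq0 : (0 : ℝ) < qr F := lt_of_lt_of_le one_pos hq
  have hqc : ((Fintype.card F : ℂ)) ^ m ≠ 0 := by
    refine pow_ne_zero _ ?_
    have : (Fintype.card F : ℕ) ≠ 0 := Fintype.card_ne_zero
    exact_mod_cast this
  have hmn : m ≤ n := by omega
  set γ : AddChar F[X] ℂ → ℂ := fun η =>
    ∑ G ∈ Mn F (n - m), (starRingEnd ℂ) (Ae k m η G) * Ae l m η (G + H0) -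
    ∑ G ∈ Mn F (n - m), (starRingEnd ℂ) (Me k n m Q η G) * Me l n m Q η (G + H0) with hγ
  -- the difference as a Fourier sum
  have hdiff : ∀ h ∈ Lw F m, (Corr F k l n (X ^ m * H0 + h) : ℂ) - MQ Q k l n (X ^ m * H0 + h) =
      ((Fintype.card F : ℂ) ^ m)⁻¹ * ∑ η ∈ ACf (X ^ m : F[X]), γ η * η (-h) := by
    intro h hh
    have e1 := hCOR F k l n m H0 h hmn h4 hh
    have e2 := hMQH F k l n m Q H0 h hmn h2 h4 hh
    have e3 : ∑ η ∈ ACf (X ^ m : F[X]), γ η * η (-h) =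
        (Fintype.card F : ℂ) ^ m * ((Corr F k l n (X ^ m * H0 + h) : ℂ) -
          MQ Q k l n (X ^ m * H0 + h)) := by
      rw [mul_sub, e1, e2, ← Finset.sum_sub_distrib]
      refine Finset.sum_congr rfl fun η _ => ?_
      rw [hγ]
      ring
    rw [e3, inv_mul_cancel_left₀ hqc]
  have hL : ∑ h ∈ Lw F m, ‖(Corr F k l n (X ^ m * H0 + h) : ℂ) -
      MQ Q k l n (X ^ m * H0 + h)‖ ^ 2 = (qr F ^ m)⁻¹ * ∑ η ∈ ACf (X ^ m : F[X]), ‖γ η‖ ^ 2 := by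
    rw [← hPLA F m γ]
    exact Finset.sum_congr rfl fun h hh => by rw [hdiff h hh]
  rw [hL]
  have hAC := (hACF F).2 (X ^ m) (Polynomial.monic_X_pow m)
  set A : ℝ := κ ^ 2 * qr F ^ (n + m - Q) * (n : ℝ) ^ C1 with hA
  have hA0 : 0 ≤ A := by rw [hA]; positivity
  have hγb : ∀ η ∈ ACf (X ^ m : F[X]), ‖γ η‖ ^ 2 ≤
      A * ∑ G ∈ Mn F (n - m), ‖Ae l m η G - Me l n m Q η G‖ ^ 2 := by
    intro η hη
    have hη' : η ∈ AC (X ^ m : F[X]) := (hAC.2.1 η).1 hη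
    refine (hGAM F k l n m Q H0 η hmn h2 h4 hη').trans ?_
    refine mul_le_mul_of_nonneg_right ?_ (Finset.sum_nonneg fun G _ => by positivity)
    exact hC1 n m Q κ η h1 h2 h3 hη' hκ
  have hsum : ∑ η ∈ ACf (X ^ m : F[X]), ‖γ η‖ ^ 2 ≤
      A * (qr F ^ m * (qr F ^ n * (n + 1) ^ (l * l))) := by
    calc ∑ η ∈ ACf (X ^ m : F[X]), ‖γ η‖ ^ 2
        ≤ ∑ η ∈ ACf (X ^ m : F[X]), A * ∑ G ∈ Mn F (n - m), ‖Ae l m η G - Me l n m Q η G‖ ^ 2 :=
          Finset.sum_le_sum hγb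
      _ = A * ∑ η ∈ ACf (X ^ m : F[X]), ∑ G ∈ Mn F (n - m), ‖Ae l m η G - Me l n m Q η G‖ ^ 2 := by
          rw [Finset.mul_sum]
      _ ≤ A * (qr F ^ m * ∑ f ∈ Mn F n, (dk l f : ℝ) ^ 2) :=
          mul_le_mul_of_nonneg_left (hSME F l n m Q hmn h2) hA0
      _ ≤ A * (qr F ^ m * (qr F ^ n * (n + 1) ^ (l * l))) := by
          refine mul_le_mul_of_nonneg_left ?_ hA0
          exact mul_le_mul_of_nonneg_left (hDKB F l n).2 (pow_nonneg hq0.le m)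
  have hn1 : ((n : ℝ) + 1) ^ (l * l) ≤ (n : ℝ) ^ (2 * (l * l)) := by
    rw [show (n : ℝ) ^ (2 * (l * l)) = ((n : ℝ) ^ 2) ^ (l * l) from pow_mul _ _ _]
    have h5 : (2 : ℝ) ≤ n := by exact_mod_cast (by omega : 2 ≤ n)
    exact pow_le_pow_left₀ (a := (n : ℝ) + 1) (b := (n : ℝ) ^ 2) (by positivity) (by nlinarith) _
  calc (qr F ^ m)⁻¹ * ∑ η ∈ ACf (X ^ m : F[X]), ‖γ η‖ ^ 2
      ≤ (qr F ^ m)⁻¹ * (A * (qr F ^ m * (qr F ^ n * (n + 1) ^ (l * l)))) :=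
        mul_le_mul_of_nonneg_left hsum (by positivity)
    _ = A * (qr F ^ n * ((n : ℝ) + 1) ^ (l * l)) := by
        have : qr F ^ m ≠ 0 := by positivity
        field_simp
    _ ≤ A * (qr F ^ n * (n : ℝ) ^ (2 * (l * l))) := by
        refine mul_le_mul_of_nonneg_left ?_ hA0
        exact mul_le_mul_of_nonneg_left hn1 (by positivity)
    _ = κ ^ 2 * qr F ^ (2 * n + m - Q) * (n : ℝ) ^ (C1 + 2 * (l * l)) := by
        rw [hA]
        have e : 2 * n + m - Q = (n + m - Q) + n := by omega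
        rw [e, pow_add (qr F), pow_add (n : ℝ)]
        ring

end Pool.Agent.Helper31.FC
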