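import Pool.Agent.Helper15.FC.St3

set_option autoImplicit false

/-! Project FC, module MQA: the main term with the means `Ak`. -/

open Polynomial Pool.Agent.Helper15.FC

namespace Pool.Agent.Helper31.FC

theorem mqa_geom (q : ℝ) (hq : 2 ≤ q) (Q : ℕ) :
    ∑ i ∈ Finset.range (Q + 1), q ^ i * q ^ i ≤ 2 * q ^ (2 * Q) := by
  induction Q with
  | zero => simp
  | succ Q ih =>
    rw [Finset.sum_range_succ]
    have h1 : q ^ (2 * (Q + 1)) = q ^ (2 * Q) * q ^ 2 := by rw [mul_add, pow_add]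
    have h2 : q ^ (Q + 1) * q ^ (Q + 1) = q ^ (2 * Q) * q ^ 2 := by ring
    rw [h1, h2]
    have h3 : 0 < q ^ (2 * Q) := by positivity
    nlinarith [mul_le_mul_of_nonneg_left (by nlinarith : (4 : ℝ) ≤ q ^ 2) h3.le]

theorem kap_nonneg {F : Type} [Field F] [Fintype F] (k : ℕ) (r : F[X]) (n : ℕ) :
    0 ≤ kap k r n := by
  unfold kap
  refine Finset.sum_nonneg fun i _ => Finset.sum_nonneg fun f _ => ?_
  positivity

theorem cram_neg {F : Type} [Field F] [Fintype F] (r h : F[X]) : cram r (-h) = cram r h := by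
  classical
  unfold cram
  exact Finset.sum_congr (Finset.filter_congr fun d _ => dvd_neg) fun _ _ => rfl

theorem hMQA (hRM2 : StRM2) (hRAM : StRAM) (hSKB : StSKB) (hDKB : StDKB) (hACF : StACF) :
    StMQA := by
  intro F _ _ k l n Q κ h hκ
  have hcard : 2 ≤ Fintype.card F := Fintype.one_lt_card
  have hq : (2 : ℝ) ≤ qr F := by exact_mod_cast hcard
  have hq1 : (1 : ℝ) ≤ qr F := by linarith
  have hq0 : (0 : ℝ) < qr F := by linarith
  have hκ0 : 0 ≤ κ := (kap_nonneg k (1 : F[X]) n).trans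
    (hκ 1 Polynomial.monic_one (by simp)).1
  have hs0 : 0 ≤ Real.sqrt (qr F) := Real.sqrt_nonneg _
  have hν1 : ∀ (ν : AddChar F[X] ℂ) (g : F[X]), ‖ν g‖ = 1 := fun ν g => ((hACF F).1 ν g).1
  -- bounds of the sums
  have hSn : ∀ (k : ℕ) (ν : AddChar F[X] ℂ), ‖Sn k n ν‖ ≤ qr F ^ n * (n + 1) ^ k := by
    intro k ν
    refine le_trans ?_ (hDKB F k n).1
    unfold Sn
    refine (norm_sum_le _ _).trans (Finset.sum_le_sum fun f _ => ?_)
    rw [norm_mul, hν1, mul_one]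
    simp
  have hcr : ∀ (r f : F[X]) (ν : AddChar F[X] ℂ), r.Monic → ν ∈ Pr r →
      |(cram r f : ℝ)| ≤ (phi r : ℝ) := by
    intro r f ν hr hν
    have e1 := hRAM F r f ν hr hν
    have e2 : ‖(cram r f : ℂ)‖ = |(cram r f : ℝ)| := by
      rw [← Complex.ofReal_intCast, Complex.norm_real, Real.norm_eq_abs]
    rw [← e2, ← e1]
    refine (norm_sum_le _ _).trans ?_
    rw [Finset.sum_congr rfl (fun x _ => hν1 ν (x * f)), Finset.sum_const, nsmul_eq_mul, mul_one,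
      card_Lc]
  have hAk : ∀ (k : ℕ) (r : F[X]) (ν : AddChar F[X] ℂ), r.Monic → ν ∈ Pr r →
      |Ak k r n| ≤ qr F ^ n * (n + 1) ^ k := by
    intro k r ν hr hν
    refine le_trans ?_ (hDKB F k n).1
    unfold Ak
    rw [abs_mul, abs_of_nonneg (by positivity : (0 : ℝ) ≤ 1 / (phi r : ℝ))]
    have e1 : |∑ f ∈ Mn F n, (dk k f : ℝ) * (cram r f : ℝ)| ≤
        (phi r : ℝ) * ∑ f ∈ Mn F n, (dk k f : ℝ) := by
      rw [Finset.mul_sum]
      refine (Finset.abs_sum_le_sum_abs _ _).trans (Finset.sum_le_sum fun f _ => ?_)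
      rw [abs_mul, abs_of_nonneg (Nat.cast_nonneg _), mul_comm]
      exact mul_le_mul_of_nonneg_right (hcr r f ν hr hν) (Nat.cast_nonneg _)
    have e2 : 0 ≤ ∑ f ∈ Mn F n, (dk k f : ℝ) := Finset.sum_nonneg fun f _ => Nat.cast_nonneg _
    rcases Nat.eq_zero_or_pos (phi r) with h0 | h0
    · rw [h0]
      simpa using e2
    · have h0' : (0 : ℝ) < phi r := by exact_mod_cast h0
      calc 1 / (phi r : ℝ) * |∑ f ∈ Mn F n, (dk k f : ℝ) * (cram r f : ℝ)|
          ≤ 1 / (phi r : ℝ) * ((phi r : ℝ) * ∑ f ∈ Mn F n, (dk k f : ℝ)) :=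
            mul_le_mul_of_nonneg_left e1 (by positivity)
        _ = ∑ f ∈ Mn F n, (dk k f : ℝ) := by
            field_simp
  -- the pointwise bound
  set B : ℝ := 2 * κ * Real.sqrt (qr F) ^ n * qr F ^ n * ((n : ℝ) + 1) ^ (k + l) *
    qr F ^ ((k + l + 1) * Q) with hB
  have hB0 : 0 ≤ B := by rw [hB]; positivity
  have hn1 : (1 : ℝ) ≤ (n : ℝ) + 1 := by
    have : (0 : ℝ) ≤ n := Nat.cast_nonneg n
    linarith
  have hpt : ∀ (r : F[X]) (ν : AddChar F[X] ℂ), r.Monic → r.natDegree ≤ Q → ν ∈ Pr r →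
      ‖(starRingEnd ℂ) (Sn k n ν) * Sn l n ν - (Ak k r n : ℂ) * (Ak l r n : ℂ)‖ ≤ B := by
    intro r ν hr hd hν
    have hκr := hκ r hr hd
    have b1 : ∀ k : ℕ, kap k r n ≤ κ → ‖Sn k n ν - (Ak k r n : ℂ)‖ ≤
        κ * Real.sqrt (qr F) ^ n * qr F ^ ((k + 1) * Q) := by
      intro k hk
      refine (hSKB F k n r ν hr hν).trans ?_
      have c1 : qr F ^ ((k + 1) * r.natDegree) ≤ qr F ^ ((k + 1) * Q) :=
        pow_le_pow_right₀ hq1 (Nat.mul_le_mul_left _ hd)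
      have c2 : kap k r n * Real.sqrt (qr F) ^ n ≤ κ * Real.sqrt (qr F) ^ n :=
        mul_le_mul_of_nonneg_right hk (by positivity)
      exact mul_le_mul c2 c1 (by positivity) (by positivity)
    have e1 : (starRingEnd ℂ) (Sn k n ν) * Sn l n ν - (Ak k r n : ℂ) * (Ak l r n : ℂ) =
        (starRingEnd ℂ) (Sn k n ν) * (Sn l n ν - (Ak l r n : ℂ)) +
        (Ak l r n : ℂ) * (starRingEnd ℂ) (Sn k n ν - (Ak k r n : ℂ)) := by
      rw [map_sub, Complex.conj_ofReal]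
      ring
    rw [e1]
    refine (norm_add_le _ _).trans ?_
    rw [norm_mul, norm_mul, RCLike.norm_conj, RCLike.norm_conj, Complex.norm_real,
      Real.norm_eq_abs]
    have t1 : ‖Sn k n ν‖ * ‖Sn l n ν - (Ak l r n : ℂ)‖ ≤
        (qr F ^ n * (n + 1) ^ k) * (κ * Real.sqrt (qr F) ^ n * qr F ^ ((l + 1) * Q)) :=
      mul_le_mul (hSn k ν) (b1 l hκr.2) (norm_nonneg _) (by positivity)
    have t2 : |Ak l r n| * ‖Sn k n ν - (Ak k r n : ℂ)‖ ≤
        (qr F ^ n * (n + 1) ^ l) * (κ * Real.sqrt (qr F) ^ n * qr F ^ ((k + 1) * Q)) :=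
      mul_le_mul (hAk l r ν hr hν) (b1 k hκr.1) (norm_nonneg _) (by positivity)
    have u1 : ((n : ℝ) + 1) ^ k ≤ ((n : ℝ) + 1) ^ (k + l) := pow_le_pow_right₀ hn1 (by omega)
    have u2 : ((n : ℝ) + 1) ^ l ≤ ((n : ℝ) + 1) ^ (k + l) := pow_le_pow_right₀ hn1 (by omega)
    have v1 : qr F ^ ((l + 1) * Q) ≤ qr F ^ ((k + l + 1) * Q) :=
      pow_le_pow_right₀ hq1 (Nat.mul_le_mul_right _ (by omega))
    have v2 : qr F ^ ((k + 1) * Q) ≤ qr F ^ ((k + l + 1) * Q) :=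
      pow_le_pow_right₀ hq1 (Nat.mul_le_mul_right _ (by omega))
    have w1 : (qr F ^ n * ((n : ℝ) + 1) ^ k) * (κ * Real.sqrt (qr F) ^ n * qr F ^ ((l + 1) * Q)) ≤
        (qr F ^ n * ((n : ℝ) + 1) ^ (k + l)) *
          (κ * Real.sqrt (qr F) ^ n * qr F ^ ((k + l + 1) * Q)) := by
      refine mul_le_mul (mul_le_mul_of_nonneg_left u1 (by positivity))
        (mul_le_mul_of_nonneg_left v1 (by positivity)) (by positivity) (by positivity)
    have w2 : (qr F ^ n * ((n : ℝ) + 1) ^ l) * (κ * Real.sqrt (qr F) ^ n * qr F ^ ((k + 1) * Q)) ≤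
        (qr F ^ n * ((n : ℝ) + 1) ^ (k + l)) *
          (κ * Real.sqrt (qr F) ^ n * qr F ^ ((k + l + 1) * Q)) := by
      refine mul_le_mul (mul_le_mul_of_nonneg_left u2 (by positivity))
        (mul_le_mul_of_nonneg_left v2 (by positivity)) (by positivity) (by positivity)
    calc ‖Sn k n ν‖ * ‖Sn l n ν - (Ak l r n : ℂ)‖ + |Ak l r n| * ‖Sn k n ν - (Ak k r n : ℂ)‖
        ≤ (qr F ^ n * ((n : ℝ) + 1) ^ (k + l)) *
          (κ * Real.sqrt (qr F) ^ n * qr F ^ ((k + l + 1) * Q)) +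
          (qr F ^ n * ((n : ℝ) + 1) ^ (k + l)) *
          (κ * Real.sqrt (qr F) ^ n * qr F ^ ((k + l + 1) * Q)) :=
          add_le_add (t1.trans w1) (t2.trans w2)
      _ = B := by rw [hB]; ring
  -- the difference as one sum
  have hMA : (MA Q k l n h : ℂ) = ((Fintype.card F : ℂ) ^ n)⁻¹ *
      ∑ i ∈ Finset.range (Q + 1), ∑ r ∈ Mn F i, ∑ ν ∈ Pr r,
        (Ak k r n : ℂ) * (Ak l r n : ℂ) * ν (-h) := by
    unfold MA
    push_cast
    congr 1
    refine Finset.sum_congr rfl fun i _ => Finset.sum_congr rfl fun r hr => ?_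
    rw [← Finset.mul_sum, (hRM2 F r (-h) (mem_Mn.1 hr).1).1, cram_neg]
  have hdiff : MQ Q k l n h - (MA Q k l n h : ℂ) = ((Fintype.card F : ℂ) ^ n)⁻¹ *
      ∑ i ∈ Finset.range (Q + 1), ∑ r ∈ Mn F i, ∑ ν ∈ Pr r,
        ((starRingEnd ℂ) (Sn k n ν) * Sn l n ν - (Ak k r n : ℂ) * (Ak l r n : ℂ)) * ν (-h) := by
    rw [hMA]
    unfold MQ
    rw [← mul_sub, ← Finset.sum_sub_distrib]
    congr 1
    refine Finset.sum_congr rfl fun i _ => ?_
    rw [← Finset.sum_sub_distrib]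
    refine Finset.sum_congr rfl fun r _ => ?_
    rw [← Finset.sum_sub_distrib]
    refine Finset.sum_congr rfl fun ν _ => ?_
    ring
  have hsum : ‖∑ i ∈ Finset.range (Q + 1), ∑ r ∈ Mn F i, ∑ ν ∈ Pr r,
        ((starRingEnd ℂ) (Sn k n ν) * Sn l n ν - (Ak k r n : ℂ) * (Ak l r n : ℂ)) * ν (-h)‖ ≤
      B * (2 * qr F ^ (2 * Q)) := by
    refine (norm_sum_le _ _).trans ?_
    refine le_trans ?_ (mul_le_mul_of_nonneg_left (mqa_geom (qr F) hq Q) hB0)
    rw [Finset.mul_sum]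
    refine Finset.sum_le_sum fun i hi => ?_
    rw [Finset.mem_range] at hi
    refine (norm_sum_le _ _).trans ?_
    have e1 : ∀ r ∈ Mn F i, ‖∑ ν ∈ Pr r, ((starRingEnd ℂ) (Sn k n ν) * Sn l n ν -
        (Ak k r n : ℂ) * (Ak l r n : ℂ)) * ν (-h)‖ ≤ B * qr F ^ i := by
      intro r hr
      obtain ⟨hr1, hr2⟩ := mem_Mn.1 hr
      have e2 : ∀ ν ∈ Pr r, ‖((starRingEnd ℂ) (Sn k n ν) * Sn l n ν -
          (Ak k r n : ℂ) * (Ak l r n : ℂ)) * ν (-h)‖ ≤ B := by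
        intro ν hν
        rw [norm_mul, hν1, mul_one]
        exact hpt r ν hr1 (by omega) hν
      refine (norm_sum_le _ _).trans ((Finset.sum_le_sum e2).trans ?_)
      rw [Finset.sum_const, nsmul_eq_mul, mul_comm]
      refine mul_le_mul_of_nonneg_left ?_ hB0
      have e3 := (hRM2 F r h hr1).2
      rw [hr2] at e3
      exact_mod_cast e3
    refine (Finset.sum_le_sum e1).trans ?_
    rw [Finset.sum_const, card_Mn, nsmul_eq_mul]
    push_cast
    nlinarith [hB0]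
  rw [hdiff, norm_mul, norm_inv, norm_pow, Complex.norm_natCast]
  calc (qr F ^ n)⁻¹ * ‖∑ i ∈ Finset.range (Q + 1), ∑ r ∈ Mn F i, ∑ ν ∈ Pr r,
        ((starRingEnd ℂ) (Sn k n ν) * Sn l n ν - (Ak k r n : ℂ) * (Ak l r n : ℂ)) * ν (-h)‖
      ≤ (qr F ^ n)⁻¹ * (B * (2 * qr F ^ (2 * Q))) :=
        mul_le_mul_of_nonneg_left hsum (by positivity)
    _ = 4 * κ * Real.sqrt (qr F) ^ n * qr F ^ ((k + l + 3) * Q) * ((n : ℝ) + 1) ^ (k + l) := by
        have e : qr F ^ ((k + l + 3) * Q) = qr F ^ ((k + l + 1) * Q) * qr F ^ (2 * Q) := by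
          rw [← pow_add]
          congr 1
          ring
        rw [hB, e]
        have hne : qr F ^ n ≠ 0 := by positivity
        field_simp
        ring

end Pool.Agent.Helper31.FC
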