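import Pool.Agent.Helper15.FC.St1

set_option autoImplicit false

/-! Project FC, module NWT: the Newton identity for `Psi` and `Asum`. -/

open Polynomial Pool.Agent.Helper15.FC

namespace Pool.Agent.Helper31.FC

theorem nwt_pow {F : Type} [Field F] {Χ : F[X] → ℂ} (h : CM Χ) {P : F[X]} (hP : P.Monic) (a : ℕ) :
    Χ (P ^ a) = Χ P ^ a := by
  induction a with
  | zero => rw [pow_zero, pow_zero]; exact h.1
  | succ a ih => rw [pow_succ, pow_succ, h.2.1 _ _ (hP.pow a) hP, ih]

open scoped Classical in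
theorem nwt_fib {F : Type} [Field F] [Fintype F] {Χ : F[X] → ℂ} (h : CM Χ) {P : F[X]}
    (hP : P.Monic) (a d : ℕ) (had : P.natDegree * a ≤ d) :
    ∑ f ∈ Mn F d, (if P ^ a ∣ f then Χ f else 0) = Χ P ^ a * Asum Χ (d - P.natDegree * a) := by
  have hPa : (P ^ a).Monic := hP.pow a
  have hdeg : (P ^ a).natDegree = P.natDegree * a := by
    rw [hP.natDegree_pow, mul_comm]
  rw [← Finset.sum_filter, Asum, Finset.mul_sum]
  symm
  refine Finset.sum_bij (fun g _ => P ^ a * g) ?_ ?_ ?_ ?_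
  · intro g hg
    obtain ⟨h1, h2⟩ := mem_Mn.1 hg
    rw [Finset.mem_filter, mem_Mn]
    refine ⟨⟨hPa.mul h1, ?_⟩, Dvd.intro _ rfl⟩
    rw [hPa.natDegree_mul h1, hdeg, h2]
    omega
  · intro g1 _ g2 _ he
    exact mul_left_cancel₀ hPa.ne_zero he
  · intro f hf
    rw [Finset.mem_filter, mem_Mn] at hf
    obtain ⟨⟨h1, h2⟩, g, hg⟩ := hf
    have hgm : g.Monic := by
      rw [hg] at h1
      exact Polynomial.Monic.of_mul_monic_left hPa h1
    refine ⟨g, mem_Mn.2 ⟨hgm, ?_⟩, hg.symm⟩
    rw [hg, hPa.natDegree_mul hgm, hdeg] at h2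
    omega
  · intro g hg
    obtain ⟨h1, -⟩ := mem_Mn.1 hg
    rw [h.2.1 _ _ hPa h1, nwt_pow h hP]

open scoped Classical in
theorem nwt_card {F : Type} [Field F] [Fintype F] {f P : F[X]} (hf : f.Monic) (hP : P.Monic)
    (hI : Irreducible P) {d : ℕ} (hd : f.natDegree = d) :
    ((Finset.Icc 1 d).filter (fun j => P.natDegree ∣ j ∧ P ^ (j / P.natDegree) ∣ f)).card =
      (UniqueFactorizationMonoid.normalizedFactors f).count P := by
  have he : 0 < P.natDegree := hI.natDegree_pos
  have hcount : ∀ a : ℕ, P ^ a ∣ f ↔ a ≤ (UniqueFactorizationMonoid.normalizedFactors f).count P := by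
    intro a
    have h1 := UniqueFactorizationMonoid.emultiplicity_eq_count_normalizedFactors hI hf.ne_zero
    rw [(Polynomial.normalize_eq_self_iff_monic hP.ne_zero).2 hP] at h1
    rw [pow_dvd_iff_le_emultiplicity, h1]
    exact Nat.cast_le
  have himg : (Finset.Icc 1 d).filter (fun j => P.natDegree ∣ j ∧ P ^ (j / P.natDegree) ∣ f) =
      (Finset.Icc 1 ((UniqueFactorizationMonoid.normalizedFactors f).count P)).image
        (fun a => P.natDegree * a) := by
    ext j
    rw [Finset.mem_filter, Finset.mem_image, Finset.mem_Icc]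
    constructor
    · rintro ⟨⟨h1, h2⟩, ⟨a, rfl⟩, h3⟩
      rw [Nat.mul_div_cancel_left _ he] at h3
      refine ⟨a, Finset.mem_Icc.2 ⟨?_, (hcount a).1 h3⟩, rfl⟩
      by_contra h4
      have : a = 0 := by omega
      subst this
      simp at h1
    · rintro ⟨a, ha, rfl⟩
      rw [Finset.mem_Icc] at ha
      have h3 : P ^ a ∣ f := (hcount a).2 ha.2
      refine ⟨⟨Nat.mul_pos he ha.1, ?_⟩, Dvd.intro _ rfl, ?_⟩
      · have := Polynomial.natDegree_le_of_dvd h3 hf.ne_zero
        rw [hP.natDegree_pow, hd, mul_comm] at this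
        exact this
      · rw [Nat.mul_div_cancel_left _ he]
        exact h3
  rw [himg, Finset.card_image_of_injective, Nat.card_Icc]
  · omega
  · intro a b hab
    exact Nat.eq_of_mul_eq_mul_left he hab

open scoped Classical in
theorem nwt_deg {F : Type} [Field F] [Fintype F] {f : F[X]} {d : ℕ} (hf : f ∈ Mn F d) :
    d = ∑ j ∈ Finset.Icc 1 d, ∑ e ∈ j.divisors, ∑ P ∈ Ir F e,
      (if P ^ (j / e) ∣ f then e else 0) := by
  obtain ⟨h1, h2⟩ := mem_Mn.1 hf
  have hIr : ∀ (e : ℕ) (P : F[X]), P ∈ Ir F e → P.Monic ∧ P.natDegree = e ∧ Irreducible P := by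
    intro e P hP
    rw [Ir, Finset.mem_filter] at hP
    exact ⟨(mem_Mn.1 hP.1).1, (mem_Mn.1 hP.1).2, hP.2⟩
  set S := UniqueFactorizationMonoid.normalizedFactors f with hS
  have hprod : S.prod = f := by
    have := Polynomial.leadingCoeff_mul_prod_normalizedFactors f
    rw [h1.leadingCoeff, C_1, one_mul] at this
    exact this
  have hmon : ∀ P ∈ S, P.Monic := fun P hP =>
    ((Polynomial.mem_normalizedFactors_iff h1.ne_zero).1 hP).2.1
  have hdS : d = ∑ P ∈ S.toFinset, S.count P * P.natDegree := by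
    have h3 : (S.map Polynomial.natDegree).sum = d := by
      rw [← Polynomial.natDegree_multiset_prod_of_monic S hmon, hprod, h2]
    rw [← h3, Finset.sum_multiset_map_count]
    rfl
  -- the sum over `j` and the divisors of `j`, exchanged
  have h4 : ∑ j ∈ Finset.Icc 1 d, ∑ e ∈ j.divisors, ∑ P ∈ Ir F e,
      (if P ^ (j / e) ∣ f then e else 0) =
      ∑ j ∈ Finset.Icc 1 d, ∑ e ∈ Finset.Icc 1 d, ∑ P ∈ Ir F e,
      (if e ∣ j ∧ P ^ (j / e) ∣ f then e else 0) := by
    refine Finset.sum_congr rfl fun j hj => ?_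
    rw [Finset.mem_Icc] at hj
    have h5 : j.divisors ⊆ Finset.Icc 1 d := by
      intro e he
      have h6 := Nat.divisor_le he
      have h7 := Nat.pos_of_mem_divisors he
      rw [Finset.mem_Icc]
      omega
    rw [← Finset.sum_subset h5]
    · refine Finset.sum_congr rfl fun e he => Finset.sum_congr rfl fun P _ => ?_
      have := Nat.dvd_of_mem_divisors he
      simp [this]
    · intro e _ he
      have h6 : ¬ e ∣ j := by
        intro h
        exact he (Nat.mem_divisors.2 ⟨h, by omega⟩)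
      refine Finset.sum_eq_zero fun P _ => ?_
      simp [h6]
  rw [h4, Finset.sum_comm]
  have h8 : ∀ e ∈ Finset.Icc 1 d, (∑ j ∈ Finset.Icc 1 d, ∑ P ∈ Ir F e,
      (if e ∣ j ∧ P ^ (j / e) ∣ f then e else 0)) = ∑ P ∈ Ir F e, S.count P * P.natDegree := by
    intro e _
    rw [Finset.sum_comm]
    refine Finset.sum_congr rfl fun P hP => ?_
    obtain ⟨h9, h10, h11⟩ := hIr e P hP
    rw [← Finset.sum_filter, Finset.sum_const, smul_eq_mul, ← nwt_card h1 h9 h11 h2, h10]
  rw [Finset.sum_congr rfl h8]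
  have h12 : (↑(Finset.Icc 1 d) : Set ℕ).PairwiseDisjoint (fun e => Ir F e) := by
    intro e _ e' _ hne
    rw [Function.onFun, Finset.disjoint_left]
    intro P hP hP'
    exact hne ((hIr e P hP).2.1.symm.trans (hIr e' P hP').2.1)
  rw [← Finset.sum_biUnion h12, ]
  conv_lhs => rw [hdS]
  refine Finset.sum_subset ?_ ?_
  · intro P hP
    rw [Multiset.mem_toFinset] at hP
    obtain ⟨h13, h14, h15⟩ := (Polynomial.mem_normalizedFactors_iff h1.ne_zero).1 hP
    rw [Finset.mem_biUnion]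
    refine ⟨P.natDegree, ?_, ?_⟩
    · rw [Finset.mem_Icc]
      have := Polynomial.natDegree_le_of_dvd h15 h1.ne_zero
      rw [h2] at this
      exact ⟨h13.natDegree_pos, this⟩
    · rw [Ir, Finset.mem_filter]
      exact ⟨mem_Mn.2 ⟨h14, rfl⟩, h13⟩
  · intro P _ hP
    rw [Multiset.mem_toFinset] at hP
    rw [Multiset.count_eq_zero_of_notMem hP, zero_mul]

theorem hNWT : StNWT := by
  classical
  intro F _ _ Χ h d
  have hIr : ∀ (e : ℕ) (P : F[X]), P ∈ Ir F e → P.Monic ∧ P.natDegree = e := by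
    intro e P hP
    rw [Ir, Finset.mem_filter] at hP
    exact mem_Mn.1 hP.1
  have h1 : (d : ℂ) * Asum Χ d = ∑ f ∈ Mn F d, ∑ j ∈ Finset.Icc 1 d, ∑ e ∈ j.divisors,
      ∑ P ∈ Ir F e, (e : ℂ) * (if P ^ (j / e) ∣ f then Χ f else 0) := by
    rw [Asum, Finset.mul_sum]
    refine Finset.sum_congr rfl fun f hf => ?_
    have h2 := congrArg (fun n : ℕ => (n : ℂ)) (nwt_deg hf)
    simp only [Nat.cast_sum] at h2
    rw [h2, Finset.sum_mul]
    refine Finset.sum_congr rfl fun j _ => ?_
    rw [Finset.sum_mul]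
    refine Finset.sum_congr rfl fun e _ => ?_
    rw [Finset.sum_mul]
    refine Finset.sum_congr rfl fun P _ => ?_
    split_ifs <;> simp
  rw [h1, Finset.sum_comm]
  refine Finset.sum_congr rfl fun j hj => ?_
  rw [Finset.mem_Icc] at hj
  rw [Finset.sum_comm, Psi, Finset.sum_mul]
  refine Finset.sum_congr rfl fun e he => ?_
  rw [Finset.sum_comm, mul_assoc, Finset.sum_mul, Finset.mul_sum]
  refine Finset.sum_congr rfl fun P hP => ?_
  obtain ⟨h3, h4⟩ := hIr e P hP
  have h5 : P.natDegree * (j / e) = j := by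
    rw [h4]
    exact Nat.mul_div_cancel' (Nat.dvd_of_mem_divisors he)
  rw [← Finset.mul_sum, nwt_fib h h3 _ _ (by rw [h5]; exact hj.2), h5]

end Pool.Agent.Helper31.FC
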