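import Pool.Agent.Helper15.FC.St3

set_option autoImplicit false

/-! Project FC, module POL: the means `Ak k r n` are polynomials in `n` times `q^n`. -/

open Polynomial Pool.Agent.Helper15.FC

namespace Pool.Agent.Helper31.FC

/-- the polynomial `prod_(j<m) (x - i + j + 1)/(j+1)` -/
noncomputable def bp (i m : ℕ) : ℝ[X] :=
  ∏ j ∈ Finset.range m, (C (1 / ((j : ℝ) + 1)) * (X + C ((j : ℝ) + 1 - i)))

theorem bp_nd (i m : ℕ) : (bp i m).natDegree ≤ m := by
  unfold bp
  refine (Polynomial.natDegree_prod_le _ _).trans ?_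
  have h : ∀ j ∈ Finset.range m,
      (C (1 / ((j : ℝ) + 1)) * (X + C ((j : ℝ) + 1 - i))).natDegree ≤ 1 := by
    intro j _
    refine (Polynomial.natDegree_C_mul_le _ _).trans ?_
    rw [Polynomial.natDegree_X_add_C]
  refine (Finset.sum_le_sum h).trans ?_
  simp

theorem bp_eval (i a m : ℕ) : (bp i m).eval ((i : ℝ) + a) = ((m + a).choose m : ℝ) := by
  induction m with
  | zero => simp [bp]
  | succ m ih =>
    have h1 : bp i (m + 1) = bp i m * (C (1 / ((m : ℝ) + 1)) * (X + C ((m : ℝ) + 1 - i))) := by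
      unfold bp
      rw [Finset.prod_range_succ]
    rw [h1, eval_mul, ih]
    have h2 : (m + a + 1) * (m + a).choose m = (m + a + 1).choose (m + 1) * (m + 1) :=
      Nat.add_one_mul_choose_eq (m + a) m
    have h3 : ((m : ℝ) + a + 1) * ((m + a).choose m : ℝ) =
        ((m + 1 + a).choose (m + 1) : ℝ) * ((m : ℝ) + 1) := by
      have e : m + 1 + a = m + a + 1 := by omega
      rw [e]
      exact_mod_cast h2
    have h4 : (m : ℝ) + 1 ≠ 0 := by positivity
    simp only [eval_mul, eval_add, eval_X, eval_C]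
    field_simp
    linear_combination h3

theorem bp_coeff (i m t : ℕ) : |(bp i m).coeff t| ≤ (2 + (i : ℝ)) ^ m := by
  induction m generalizing t with
  | zero =>
    unfold bp
    rw [Finset.range_zero, Finset.prod_empty, pow_zero, coeff_one]
    split_ifs <;> simp
  | succ m ih =>
    have h1 : bp i (m + 1) = C (1 / ((m : ℝ) + 1)) * (bp i m * X + C ((m : ℝ) + 1 - i) * bp i m) := by
      unfold bp
      rw [Finset.prod_range_succ]
      ring
    rw [h1, coeff_C_mul, coeff_add, coeff_C_mul, abs_mul]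
    have hb0 : (0 : ℝ) ≤ (2 + (i : ℝ)) ^ m := by positivity
    have h2 : |(bp i m * X).coeff t| ≤ (2 + (i : ℝ)) ^ m := by
      cases t with
      | zero => simpa using hb0
      | succ t =>
        rw [coeff_mul_X]
        exact ih t
    have hm : (0 : ℝ) < (m : ℝ) + 1 := by positivity
    have hi : (0 : ℝ) ≤ i := Nat.cast_nonneg i
    have h3 : |(m : ℝ) + 1 - i| ≤ (m : ℝ) + 1 + i := by
      rw [abs_le]
      constructor <;> linarith
    have h4 : |(bp i m * X).coeff t + ((m : ℝ) + 1 - i) * (bp i m).coeff t| ≤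
        (1 + ((m : ℝ) + 1 + i)) * (2 + (i : ℝ)) ^ m := by
      refine (abs_add_le _ _).trans ?_
      rw [abs_mul, add_mul, one_mul]
      exact add_le_add h2 (mul_le_mul h3 (ih t) (abs_nonneg _) (by positivity))
    have h5 : |1 / ((m : ℝ) + 1)| = 1 / ((m : ℝ) + 1) := abs_of_pos (by positivity)
    rw [h5]
    have h6 : 1 / ((m : ℝ) + 1) * (1 + ((m : ℝ) + 1 + i)) ≤ 2 + i := by
      rw [one_div, inv_mul_le_iff₀ hm]
      have : (0 : ℝ) ≤ (m : ℝ) * (1 + i) := by positivity
      nlinarith
    calc 1 / ((m : ℝ) + 1) * |(bp i m * X).coeff t + ((m : ℝ) + 1 - i) * (bp i m).coeff t|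
        ≤ 1 / ((m : ℝ) + 1) * ((1 + ((m : ℝ) + 1 + i)) * (2 + (i : ℝ)) ^ m) :=
          mul_le_mul_of_nonneg_left h4 (by positivity)
      _ = (1 / ((m : ℝ) + 1) * (1 + ((m : ℝ) + 1 + i))) * (2 + (i : ℝ)) ^ m := by ring
      _ ≤ (2 + i) * (2 + (i : ℝ)) ^ m := mul_le_mul_of_nonneg_right h6 hb0
      _ = (2 + (i : ℝ)) ^ (m + 1) := by rw [pow_succ]; ring

theorem pol_inv (q : ℝ) (m : ℕ) :
    (1 - PowerSeries.C q * PowerSeries.X) ^ (m + 1) *
      PowerSeries.mk (fun n => q ^ n * ((m + n).choose m : ℝ)) = 1 := by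
  have h : (PowerSeries.mk (fun n => ((m + n).choose m : ℝ))) * (1 - PowerSeries.X) ^ (m + 1) =
      1 := by
    rw [← PowerSeries.mk_one_pow_eq_mk_choose_add, ← mul_pow,
      PowerSeries.mk_one_mul_one_sub_eq_one, one_pow]
  have h2 := congrArg (PowerSeries.rescale q) h
  rw [map_mul, map_pow, map_sub, map_one, PowerSeries.rescale_X, PowerSeries.rescale_mk] at h2
  rw [mul_comm]
  exact h2

theorem Ak_eq {F : Type} [Field F] [Fintype F] (k n : ℕ) (r : F[X]) :
    Ak k r n = ∑ d ∈ Dv r, (1 / (phi r : ℝ)) * (mob (r / d) : ℝ) * qr F ^ d.natDegree *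
      Bkd k d n := by
  classical
  unfold Ak cram Bkd
  push_cast
  simp only [Finset.mul_sum, Finset.sum_filter]
  rw [Finset.sum_comm]
  refine Finset.sum_congr rfl fun d _ => Finset.sum_congr rfl fun f _ => ?_
  split_ifs <;> ring

theorem mob_le {F : Type} [Field F] (f : F[X]) : |(mob f : ℝ)| ≤ 1 := by
  classical
  unfold mob
  split_ifs
  · push_cast
    rw [abs_pow, abs_neg, abs_one, one_pow]
  · simp

theorem tau_mono {F : Type} [Field F] [Fintype F] {r d : F[X]} (hr : r ≠ 0) (hd : d ∈ Dv r) :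
    tau d ≤ tau r := by
  obtain ⟨h1, h2⟩ := (mem_Dv hr).1 hd
  unfold tau
  have : Dv d ⊆ Dv r := by
    intro e he
    obtain ⟨h3, h4⟩ := (mem_Dv h1.ne_zero).1 he
    exact (mem_Dv hr).2 ⟨h3, h4.trans h2⟩
  exact_mod_cast Finset.card_le_card this

theorem hPOL (hBKD : StBKD) (hPHI : StPHI) : StPOL := by
  classical
  intro F _ _ k hk
  obtain ⟨m, rfl⟩ : ∃ m, k = m + 1 := ⟨k - 1, by omega⟩
  have hq : (1 : ℝ) ≤ qr F := by
    have := Fintype.card_pos (α := F)
    exact_mod_cast this
  have hq0 : (0 : ℝ) < qr F := lt_of_lt_of_le one_pos hq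
  have hB : ∀ d : F[X], ∃ Nn : ℝ[X], d.Monic → Nn.natDegree ≤ (m + 1) * d.natDegree ∧
      PowerSeries.mk (fun n => Bkd (m + 1) d n) *
        (1 - PowerSeries.C (qr F) * PowerSeries.X) ^ (m + 1) = (Nn : PowerSeries ℝ) ∧
      ∑ i ∈ Finset.range ((m + 1) * d.natDegree + 1), |Nn.coeff i| * (qr F ^ i)⁻¹ ≤
        (qr F ^ d.natDegree)⁻¹ * tau d ^ (2 * (m + 1)) := by
    intro d
    by_cases h : d.Monic
    · obtain ⟨Nn, hN⟩ := hBKD F (m + 1) d h
      exact ⟨Nn, fun _ => hN⟩
    · exact ⟨0, fun h' => absurd h' h⟩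
  choose N hN using hB
  set cc : F[X] → F[X] → ℝ := fun r d =>
    (1 / (phi r : ℝ)) * (mob (r / d) : ℝ) * qr F ^ d.natDegree with hcc
  set H : F[X] → ℝ[X] := fun r => ∑ d ∈ Dv r, C (cc r d) * N d with hH
  have hHcoeff : ∀ r i, (H r).coeff i = ∑ d ∈ Dv r, cc r d * (N d).coeff i := by
    intro r i
    rw [hH]
    simp only [finsetSum_coeff, coeff_C_mul]
  have hdeg : ∀ (r d : F[X]), r.Monic → d ∈ Dv r → d.natDegree ≤ r.natDegree := by
    intro r d hr hd
    exact Polynomial.natDegree_le_of_dvd ((mem_Dv hr.ne_zero).1 hd).2 hr.ne_zero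
  have hH0 : ∀ (r : F[X]), r.Monic → ∀ i, (m + 1) * r.natDegree < i → (H r).coeff i = 0 := by
    intro r hr i hi
    rw [hHcoeff]
    refine Finset.sum_eq_zero fun d hd => ?_
    have h1 := (hN d ((mem_Dv hr.ne_zero).1 hd).1).1
    have h2 := Nat.mul_le_mul_left (m + 1) (hdeg r d hr hd)
    rw [Polynomial.coeff_eq_zero_of_natDegree_lt (by omega), mul_zero]
  have hHser : ∀ (r : F[X]), r.Monic → PowerSeries.mk (fun n => Ak (m + 1) r n) *
      (1 - PowerSeries.C (qr F) * PowerSeries.X) ^ (m + 1) = (H r : PowerSeries ℝ) := by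
    intro r hr
    have e1 : PowerSeries.mk (fun n => Ak (m + 1) r n) =
        ∑ d ∈ Dv r, PowerSeries.C (cc r d) * PowerSeries.mk (fun n => Bkd (m + 1) d n) := by
      ext n
      rw [map_sum, PowerSeries.coeff_mk, Ak_eq]
      refine Finset.sum_congr rfl fun d _ => ?_
      rw [PowerSeries.coeff_C_mul, PowerSeries.coeff_mk]
    have e2 : (H r : PowerSeries ℝ) =
        ∑ d ∈ Dv r, PowerSeries.C (cc r d) * (N d : PowerSeries ℝ) := by
      rw [← Polynomial.coeToPowerSeries.ringHom_apply, hH, map_sum]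
      refine Finset.sum_congr rfl fun d _ => ?_
      rw [map_mul, Polynomial.coeToPowerSeries.ringHom_apply,
        Polynomial.coeToPowerSeries.ringHom_apply, Polynomial.coe_C]
    rw [e1, e2, Finset.sum_mul]
    refine Finset.sum_congr rfl fun d hd => ?_
    rw [mul_assoc, (hN d ((mem_Dv hr.ne_zero).1 hd).1).2.1]
  have hAk : ∀ (r : F[X]), r.Monic → ∀ n, (m + 1) * r.natDegree ≤ n → Ak (m + 1) r n =
      ∑ i ∈ Finset.range ((m + 1) * r.natDegree + 1),
        (H r).coeff i * (qr F ^ (n - i) * ((m + (n - i)).choose m : ℝ)) := by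
    intro r hr n hn
    have e1 : PowerSeries.mk (fun n => Ak (m + 1) r n) = (H r : PowerSeries ℝ) *
        PowerSeries.mk (fun n => qr F ^ n * ((m + n).choose m : ℝ)) := by
      rw [← hHser r hr, mul_assoc, pol_inv, mul_one]
    have e2 := congrArg (PowerSeries.coeff n) e1
    rw [PowerSeries.coeff_mk, PowerSeries.coeff_mul] at e2
    rw [e2, Finset.Nat.sum_antidiagonal_eq_sum_range_succ_mk]
    symm
    refine Finset.sum_subset_zero_on_sdiff ?_ ?_ ?_
    · intro i hi
      rw [Finset.mem_range] at hi ⊢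
      omega
    · intro i hi
      rw [Finset.mem_sdiff, Finset.mem_range, Finset.mem_range] at hi
      rw [Polynomial.coeff_coe, hH0 r hr i (by omega), zero_mul]
    · intro i _
      rw [Polynomial.coeff_coe, PowerSeries.coeff_mk]
  refine ⟨fun r => ∑ i ∈ Finset.range ((m + 1) * r.natDegree + 1),
    C ((H r).coeff i * (qr F ^ i)⁻¹) * bp i m, ?_⟩
  intro r hr
  refine ⟨?_, ?_, ?_⟩
  · refine Polynomial.natDegree_sum_le_of_forall_le _ _ fun i _ => ?_
    exact (Polynomial.natDegree_C_mul_le _ _).trans (by simpa using bp_nd i m)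
  · intro n hn
    rw [hAk r hr n hn]
    simp only [eval_finsetSum, eval_mul, eval_C]
    rw [Finset.mul_sum]
    refine Finset.sum_congr rfl fun i hi => ?_
    rw [Finset.mem_range] at hi
    have hin : i ≤ n := by omega
    have e1 : (n : ℝ) = (i : ℝ) + ((n - i : ℕ) : ℝ) := by
      rw [Nat.cast_sub hin]
      ring
    have e2 : (bp i m).eval (n : ℝ) = ((m + (n - i)).choose m : ℝ) := by
      rw [e1]
      exact bp_eval i (n - i) m
    rw [e2]
    have e3 : qr F ^ n = qr F ^ (n - i) * qr F ^ i := by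
      rw [← pow_add]
      congr 1
      omega
    have e4 : qr F ^ i ≠ 0 := by positivity
    rw [e3]
    field_simp
  · intro t
    have hdnn : (0 : ℝ) ≤ ((m + 1 : ℕ) : ℝ) * r.natDegree := by positivity
    have hbase : (1 : ℝ) ≤ 2 + ((m + 1 : ℕ) : ℝ) * r.natDegree := by linarith
    have hphi := hPHI F r hr
    have hphi0 : (0 : ℝ) < phi r := by exact_mod_cast hphi.1
    have htau0 : ∀ d : F[X], 0 ≤ tau d := fun d => by unfold tau; positivity
    -- the weighted norm of `H`
    have hnorm : ∑ i ∈ Finset.range ((m + 1) * r.natDegree + 1), |(H r).coeff i| * (qr F ^ i)⁻¹ ≤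
        tau r ^ (2 * (m + 1) + 2) * (qr F ^ r.natDegree)⁻¹ := by
      have s1 : ∑ i ∈ Finset.range ((m + 1) * r.natDegree + 1), |(H r).coeff i| * (qr F ^ i)⁻¹ ≤
          ∑ d ∈ Dv r, (1 / (phi r : ℝ)) * tau r ^ (2 * (m + 1)) := by
        calc ∑ i ∈ Finset.range ((m + 1) * r.natDegree + 1), |(H r).coeff i| * (qr F ^ i)⁻¹
            ≤ ∑ i ∈ Finset.range ((m + 1) * r.natDegree + 1), ∑ d ∈ Dv r,
                |cc r d| * (|(N d).coeff i| * (qr F ^ i)⁻¹) := by
              refine Finset.sum_le_sum fun i _ => ?_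
              rw [hHcoeff]
              have : ∑ d ∈ Dv r, |cc r d| * (|(N d).coeff i| * (qr F ^ i)⁻¹) =
                  (∑ d ∈ Dv r, |cc r d * (N d).coeff i|) * (qr F ^ i)⁻¹ := by
                rw [Finset.sum_mul]
                refine Finset.sum_congr rfl fun d _ => ?_
                rw [abs_mul (cc r d)]
                ring
              rw [this]
              exact mul_le_mul_of_nonneg_right (Finset.abs_sum_le_sum_abs _ _) (by positivity)
          _ = ∑ d ∈ Dv r, |cc r d| * ∑ i ∈ Finset.range ((m + 1) * r.natDegree + 1),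
                (|(N d).coeff i| * (qr F ^ i)⁻¹) := by
              rw [Finset.sum_comm]
              exact Finset.sum_congr rfl fun d _ => by rw [Finset.mul_sum]
          _ ≤ ∑ d ∈ Dv r, (1 / (phi r : ℝ)) * tau r ^ (2 * (m + 1)) := by
              refine Finset.sum_le_sum fun d hd => ?_
              have hdm := ((mem_Dv hr.ne_zero).1 hd).1
              have hNd := hN d hdm
              have a1 : ∑ i ∈ Finset.range ((m + 1) * r.natDegree + 1),
                  (|(N d).coeff i| * (qr F ^ i)⁻¹) =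
                  ∑ i ∈ Finset.range ((m + 1) * d.natDegree + 1),
                  (|(N d).coeff i| * (qr F ^ i)⁻¹) := by
                symm
                refine Finset.sum_subset ?_ ?_
                · intro i hi
                  rw [Finset.mem_range] at hi ⊢
                  have := Nat.mul_le_mul_left (m + 1) (hdeg r d hr hd)
                  omega
                · intro i _ hi
                  rw [Finset.mem_range] at hi
                  rw [Polynomial.coeff_eq_zero_of_natDegree_lt (by have := hNd.1; omega),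
                    abs_zero, zero_mul]
              rw [a1]
              have a2 : |cc r d| ≤ (1 / (phi r : ℝ)) * qr F ^ d.natDegree := by
                rw [hcc]
                simp only [abs_mul]
                rw [abs_of_nonneg (by positivity : (0 : ℝ) ≤ 1 / (phi r : ℝ)),
                  abs_of_nonneg (by positivity : (0 : ℝ) ≤ qr F ^ d.natDegree)]
                have a3 := mob_le (r / d)
                have a4 : (1 / (phi r : ℝ)) * |(mob (r / d) : ℝ)| ≤ (1 / (phi r : ℝ)) * 1 :=
                  mul_le_mul_of_nonneg_left a3 (by positivity)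
                rw [mul_one] at a4
                exact mul_le_mul_of_nonneg_right a4 (by positivity)
              have a5 : tau d ^ (2 * (m + 1)) ≤ tau r ^ (2 * (m + 1)) :=
                pow_le_pow_left₀ (htau0 d) (tau_mono hr.ne_zero hd) _
              calc |cc r d| * ∑ i ∈ Finset.range ((m + 1) * d.natDegree + 1),
                    (|(N d).coeff i| * (qr F ^ i)⁻¹)
                  ≤ ((1 / (phi r : ℝ)) * qr F ^ d.natDegree) *
                    ((qr F ^ d.natDegree)⁻¹ * tau d ^ (2 * (m + 1))) :=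
                    mul_le_mul a2 hNd.2.2 (Finset.sum_nonneg fun i _ => by positivity)
                      (by positivity)
                _ = (1 / (phi r : ℝ)) * tau d ^ (2 * (m + 1)) := by
                    have : qr F ^ d.natDegree ≠ 0 := by positivity
                    field_simp
                _ ≤ (1 / (phi r : ℝ)) * tau r ^ (2 * (m + 1)) :=
                    mul_le_mul_of_nonneg_left a5 (by positivity)
      refine s1.trans ?_
      rw [Finset.sum_const, nsmul_eq_mul]
      have s2 : ((Dv r).card : ℝ) = tau r := rfl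
      rw [s2]
      have s3 : 1 / (phi r : ℝ) ≤ tau r * (qr F ^ r.natDegree)⁻¹ := by
        rw [div_le_iff₀ hphi0]
        have hqr : (0 : ℝ) < qr F ^ r.natDegree := by positivity
        rw [mul_right_comm, ← div_eq_mul_inv, le_div_iff₀ hqr, one_mul, mul_comm]
        exact hphi.2.2
      calc tau r * (1 / (phi r : ℝ) * tau r ^ (2 * (m + 1)))
          = (1 / (phi r : ℝ)) * (tau r * tau r ^ (2 * (m + 1))) := by ring
        _ ≤ (tau r * (qr F ^ r.natDegree)⁻¹) * (tau r * tau r ^ (2 * (m + 1))) :=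
            mul_le_mul_of_nonneg_right s3 (mul_nonneg (htau0 r) (pow_nonneg (htau0 r) _))
        _ = tau r ^ (2 * (m + 1) + 2) * (qr F ^ r.natDegree)⁻¹ := by
            rw [pow_add]
            ring
    have hM : ∀ i ∈ Finset.range ((m + 1) * r.natDegree + 1), |(bp i m).coeff t| ≤
        (2 + ((m + 1 : ℕ) : ℝ) * r.natDegree) ^ (m + 1) := by
      intro i hi
      rw [Finset.mem_range] at hi
      have hi' : (i : ℝ) ≤ ((m + 1 : ℕ) : ℝ) * r.natDegree := by
        have : i ≤ (m + 1) * r.natDegree := by omega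
        exact_mod_cast this
      refine (bp_coeff i m t).trans ?_
      refine (pow_le_pow_left₀ (by positivity)
        (by linarith : 2 + (i : ℝ) ≤ 2 + ((m + 1 : ℕ) : ℝ) * r.natDegree) m).trans ?_
      exact pow_le_pow_right₀ hbase (by omega)
    rw [finsetSum_coeff]
    refine (Finset.abs_sum_le_sum_abs _ _).trans ?_
    calc ∑ i ∈ Finset.range ((m + 1) * r.natDegree + 1),
          |(C ((H r).coeff i * (qr F ^ i)⁻¹) * bp i m).coeff t|
        ≤ ∑ i ∈ Finset.range ((m + 1) * r.natDegree + 1), (|(H r).coeff i| * (qr F ^ i)⁻¹) *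
            (2 + ((m + 1 : ℕ) : ℝ) * r.natDegree) ^ (m + 1) := by
          refine Finset.sum_le_sum fun i hi => ?_
          rw [coeff_C_mul, abs_mul, abs_mul,
            abs_of_nonneg (by positivity : (0 : ℝ) ≤ (qr F ^ i)⁻¹)]
          exact mul_le_mul_of_nonneg_left (hM i hi) (by positivity)
      _ = (∑ i ∈ Finset.range ((m + 1) * r.natDegree + 1), (|(H r).coeff i| * (qr F ^ i)⁻¹)) *
            (2 + ((m + 1 : ℕ) : ℝ) * r.natDegree) ^ (m + 1) := by rw [Finset.sum_mul]
      _ ≤ (tau r ^ (2 * (m + 1) + 2) * (qr F ^ r.natDegree)⁻¹) *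
            (2 + ((m + 1 : ℕ) : ℝ) * r.natDegree) ^ (m + 1) :=
          mul_le_mul_of_nonneg_right hnorm (by positivity)
      _ = (2 + ((m + 1 : ℕ) : ℝ) * r.natDegree) ^ (m + 1) * tau r ^ (2 * (m + 1) + 2) *
            (qr F ^ r.natDegree)⁻¹ := by ring

end Pool.Agent.Helper31.FC
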