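import Pool.Agent.Helper15.FC.St1

set_option autoImplicit false

/-! Project FC, module VB: basic facts on the spaces `V_j`. -/

open Polynomial Pool.Agent.Helper15.FC

namespace Pool.Agent.Helper31.FC

theorem vb_mem {L : Type} [Field L] {b : ℕ} {y : Fin b → PowerSeries L} {j : ℕ}
    {u : PowerSeries L} :
    u ∈ Vj y j ↔ ∃ Φ : MvPolynomial (Option (Fin b)) L, Φ.totalDegree ≤ j ∧ ev y Φ = u := by
  unfold Vj
  rw [Submodule.mem_map]
  constructor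
  · rintro ⟨Φ, h1, h2⟩
    exact ⟨Φ, (MvPolynomial.mem_restrictTotalDegree _ _ _).1 h1, h2⟩
  · rintro ⟨Φ, h1, h2⟩
    exact ⟨Φ, (MvPolynomial.mem_restrictTotalDegree _ _ _).2 h1, h2⟩

theorem hVB : StVB := by
  intro L _ b y
  refine ⟨?_, ?_, ?_, ?_, ?_, ?_, ?_⟩
  · intro i j u v hu hv
    obtain ⟨Φ, h1, rfl⟩ := vb_mem.1 hu
    obtain ⟨Ψ, h2, rfl⟩ := vb_mem.1 hv
    exact vb_mem.2 ⟨Φ * Ψ, (MvPolynomial.totalDegree_mul _ _).trans (add_le_add h1 h2),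
      map_mul _ _ _⟩
  · intro i j hij u hu
    obtain ⟨Φ, h1, rfl⟩ := vb_mem.1 hu
    exact vb_mem.2 ⟨Φ, h1.trans hij, rfl⟩
  · intro i
    refine vb_mem.2 ⟨MvPolynomial.X none ^ i, ?_, ?_⟩
    · rw [MvPolynomial.totalDegree_X_pow]
    · rw [map_pow, ev, MvPolynomial.aeval_X]
      rfl
  · intro j a
    refine vb_mem.2 ⟨MvPolynomial.C a, ?_, ?_⟩
    · rw [MvPolynomial.totalDegree_C]
      exact Nat.zero_le _
    · rw [ev, MvPolynomial.aeval_C]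
      rfl
  · intro t
    refine vb_mem.2 ⟨MvPolynomial.X (some t), ?_, ?_⟩
    · rw [MvPolynomial.totalDegree_X]
    · rw [ev, MvPolynomial.aeval_X]
      rfl
  · intro j
    unfold Vj
    infer_instance
  · intro u
    constructor
    · rintro ⟨Φ, rfl⟩
      exact ⟨Φ.totalDegree, vb_mem.2 ⟨Φ, le_rfl, rfl⟩⟩
    · rintro ⟨j, hj⟩
      obtain ⟨Φ, -, rfl⟩ := vb_mem.1 hj
      exact ⟨Φ, rfl⟩

end Pool.Agent.Helper31.FC
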